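import Mathlib

namespace Pool.Agent.Results.MP_26672a_co.Counter

open Finset

/-- The deletion shadow of a family of words of length `m + 1` over an alphabet of size `r`. -/
def shadow {r m : ℕ} (F : Finset (Fin (m + 1) → Fin r)) : Finset (Fin m → Fin r) :=
  F.biUnion fun w => univ.image fun i : Fin (m + 1) => fun j => w (i.succAbove j)

/-- `F` has minimal deletion shadow given its size. -/
def Minimal {r m : ℕ} (F : Finset (Fin (m + 1) → Fin r)) : Prop :=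
  ∀ G : Finset (Fin (m + 1) → Fin r), G.card = F.card → (shadow F).card ≤ (shadow G).card

/-- Number of occurrences of the letter `x`; the element `a : Fin r` is the letter `a + 1`. -/
def c {r n : ℕ} (x : ℕ) (w : Fin n → Fin r) : ℕ := (univ.filter fun i => (w i).val + 1 = x).card

def G : Finset (Fin 4 → Fin 3) :=
  {![0, 0, 0, 0], ![0, 0, 0, 1], ![0, 0, 0, 2], ![0, 0, 1, 0], ![0, 0, 1, 1], ![0, 0, 1, 2],
   ![0, 0, 2, 1], ![0, 1, 0, 0], ![0, 1, 0, 1], ![0, 1, 0, 2], ![0, 1, 1, 0], ![0, 1, 1, 1],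
   ![0, 1, 1, 2], ![0, 1, 2, 1], ![0, 2, 1, 1], ![1, 0, 0, 0], ![1, 0, 0, 1], ![1, 0, 0, 2],
   ![1, 0, 1, 0], ![1, 0, 1, 1], ![1, 0, 1, 2], ![1, 0, 2, 1], ![1, 1, 0, 0], ![1, 1, 0, 1],
   ![1, 1, 0, 2], ![1, 1, 1, 0], ![1, 1, 1, 1], ![1, 1, 1, 2], ![1, 1, 2, 1], ![1, 2, 1, 1],
   ![2, 0, 0, 0], ![2, 1, 1, 1]}

/-- The family `F_{s,k,l}` of words of length `n` over `[r]`. -/
def Fam (r n s k l : ℕ) : Finset (Fin n → Fin r) :=
  univ.filter fun w => (∀ i, (w i).val + 1 ≤ s) ∧ (c s w ≤ k ∨ (c s w = k + 1 ∧ c (s - 1) w ≤ l))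

theorem result : ¬ Minimal (Fam 3 (3 + 1) 3 0 1) ∧
    ¬ ∀ r m s k l : ℕ, 2 ≤ r → 2 ≤ m + 1 → 2 ≤ s → s ≤ r → k ≤ m + 1 - 1 → l ≤ m + 1 - k - 1 →
      Minimal (Fam r (m + 1) s k l) := by
  have h : ¬ Minimal (Fam 3 (3 + 1) 3 0 1) := fun h =>
    absurd (h G (by decide +kernel)) (by decide +kernel)
  exact ⟨h, fun H => h (H 3 3 3 0 1 (by norm_num) (by norm_num) (by norm_num) le_rfl
    (by norm_num) (by norm_num))⟩

end Pool.Agent.Results.MP_26672a_co.Counter
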